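import Pool.Agent.H85.FD2.Clause
import Pool.Agent.H10.FG.QBase
import Pool.Agent.H10.FG.Solv

/-!
# The first case over fields whose closure does not contain the cube roots of unity

If `L` is a Galois extension of `ℚ` which contains `K` but not the primitive cube roots of unity `ω`, and `3` does
not divide `[K : F]` for a real abelian subfield `F`, the automorphism of `L(ω)` which fixes `L` and moves `ω` is
blocked: its cycle type is `(1, ..., 1)`.  So the first case holds over `K` for a set of primes of lower Dirichlet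
density at least `1 / (2 [L : ℚ])`.
-/

set_option autoImplicit false

namespace Pool.Agent.H11.FG

open NumberField H85FD Pool.Agent.H89.FrobD

/-- `(1, ..., 1)` splits for `r = 2` only if the number of its members is divisible by `3` -/
theorem three_dvd_of_ones {M : Multiset ℕ} (h1 : ∀ k ∈ M, k = 1) (h : SplitsN 2 M) : 3 ∣ M.sum := by
  obtain ⟨A, B, C, h0, hA, -, hB, hC, -⟩ := h
  have hB0 : B = 0 := Multiset.eq_zero_of_forall_notMem fun k hk => by
    have h2 := hB rfl k hk
    rw [h1 k (by rw [h0]; simp [hk])] at h2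
    omega
  have hC0 : C = 0 := Multiset.eq_zero_of_forall_notMem fun k hk => by
    have h2 := hC k hk
    rw [h1 k (by rw [h0]; simp [hk])] at h2
    exact absurd h2 (by decide)
  have h3 := hA.dvd
  rw [Multiset.map_id] at h3
  rw [h0, hB0, hC0, add_zero, add_zero]
  exact h3

variable {K L M : Type} [Field K] [NumberField K] [Field L] [NumberField L] [IsGalois ℚ L]
  [Field M] [NumberField M]

/-- the embeddings of `K` have values in the image of `L` -/
theorem mem_range (ι : K →ₐ[ℚ] L) (σ : L →ₐ[ℚ] M) (φ : K →ₐ[ℚ] M) (x : K) : ∃ y : L, σ y = φ x := by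
  have h1 : ((minpoly ℚ x).map (algebraMap ℚ L)).Splits := by
    rw [← minpoly.algHom_eq ι ι.injective x]
    exact Normal.splits inferInstance (ι x)
  have h2 : (minpoly ℚ x).map (algebraMap ℚ L) ≠ 0 :=
    Polynomial.map_ne_zero (minpoly.ne_zero (IsIntegral.of_finite ℚ x))
  have h3 : (((minpoly ℚ x).map (algebraMap ℚ L)).map (σ : L →+* M)).IsRoot (φ x) := by
    have e : (σ : L →+* M).comp (algebraMap ℚ L) = algebraMap ℚ M := Subsingleton.elim _ _
    rw [Polynomial.map_map, e, Polynomial.IsRoot, Polynomial.eval_map_algebraMap,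
      Polynomial.aeval_algHom_apply, minpoly.aeval, map_zero]
  exact h1.mem_range_of_isRoot h2 h3

/-- CLAUSE (G) -/
theorem real_lower (K L : Type) [Field K] [NumberField K] [Field L] [NumberField L] [IsGalois ℚ L]
    (hKL : Nonempty (K →+* L)) (hL : ∀ ω : L, ω ^ 2 + ω + 1 ≠ 0)
    (hF : ∃ (F : Type) (_ : Field F) (_ : NumberField F) (_ : Algebra F K),
      (∃ n : ℕ, 0 < n ∧ H29AB.RealAb n F) ∧ ¬ 3 ∣ Module.finrank F K) :
    H10FG.LowerDirichlet {p | H10FG.FC K p} (1 / (2 * (Module.finrank ℚ L : ℝ))) := by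
  classical
  obtain ⟨ι₀⟩ := hKL
  let ι : K →ₐ[ℚ] L := ι₀.toRatAlgHom
  obtain ⟨F, iF, iN, iA, hF, h3⟩ := hF
  obtain ⟨M, iM, iMN, iMG, ⟨σ⟩, ω, hω⟩ := H10FG.exists_L L
  have hcard := H10FG.card_move (K := L) hω hL σ
  set X : Set Gal(M/ℚ) := H10FG.St σ ∩ {g | g ω ≠ ω} with hX
  have hmain := H85FD2.blocked_main K M ⟨(σ.comp ι : K →ₐ[ℚ] M)⟩ X (fun g hg => by
    let τ : F →+* M := ((σ.comp ι : K →ₐ[ℚ] M) : K →+* M).comp (algebraMap F K)
    have hfix : ∀ y : L, g (σ y) = σ y := fun y => DFunLike.congr_fun hg.1 y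
    have hfixK : ∀ (φ : K →+* M) (x : K), g (φ x) = φ x := fun φ x => by
      obtain ⟨y, hy⟩ := mem_range ι σ φ.toRatAlgHom x
      have hy' : σ y = φ x := hy
      rw [← hy']
      exact hfix y
    have hper : Function.minimalPeriod (fun τ : F →+* M => (g : M →+* M).comp τ) τ = 1 := by
      rw [Function.minimalPeriod_eq_one_iff_isFixedPt]
      exact RingHom.ext fun x => hfixK ((σ.comp ι : K →ₐ[ℚ] M) : K →+* M) (algebraMap F K x)
    let _ : Algebra F M := τ.toAlgebra
    have hT : IsScalarTower ℚ F M := IsScalarTower.of_algebraMap_eq' (Subsingleton.elim _ _)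
    have hT2 : IsScalarTower ℚ F K := IsScalarTower.of_algebraMap_eq' (Subsingleton.elim _ _)
    have hfd : FiniteDimensional F K := Module.Finite.of_restrictScalars_finite ℚ F K
    have hcardF : Fintype.card (K →ₐ[F] M) = Module.finrank F K := by
      apply AlgHom.card_of_splits F K M
      intro x
      refine (IsIntegral.of_finite ℚ x).minpoly_splits_tower_top ?_
      rw [← minpoly.algHom_eq (σ.comp ι) (σ.comp ι).injective x]
      exact Normal.splits inferInstance _
    let e : (K →ₐ[F] M) ≃ {σ : K →+* M // ∀ x : F, σ (algebraMap F K x) = τ x} :=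
      { toFun := fun φ => ⟨φ, fun x => φ.commutes x⟩
        invFun := fun φ => { φ.1 with commutes' := φ.2 }
        left_inv := fun φ => AlgHom.ext fun x => rfl
        right_inv := fun φ => Subtype.ext (RingHom.ext fun x => rfl) }
    have iFin : Fintype {σ : K →+* M // ∀ x : F, σ (algebraMap F K x) = τ x} := Fintype.ofEquiv _ e
    refine ⟨F, iF, iN, iA, hF, τ, iFin, inferInstance, 1, fun φ => ?_, fun r hr hrω hs => ?_⟩
    · rw [hper, pow_one]
      exact RingHom.ext fun x => (hfixK φ.1 x).symm
    · have hr2 : r = 2 := by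
        rcases hr with h | h
        · exfalso
          refine hg.2 ?_
          have h4 := (hrω ω hω).2 h
          rw [hper, pow_one] at h4
          exact h4
        · exact h
      rw [hr2] at hs
      have h5 := three_dvd_of_ones (fun k hk => ?_) hs
      · rw [Nat.Partition.parts_sum, ← Fintype.card_congr e, hcardF] at h5
        exact h3 h5
      · rw [Equiv.Perm.parts_partition, Equiv.Perm.cycleType_one, zero_add] at hk
        exact Multiset.eq_of_mem_replicate hk)
  refine hmain.mono (fun p _ hp => hp) (le_of_eq ?_)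
  have h6 : (2 * (Module.finrank ℚ L : ℝ)) * (X.ncard : ℝ) = (Module.finrank ℚ M : ℝ) := by
    exact_mod_cast hcard
  have h7 : (0 : ℝ) < Module.finrank ℚ M := by exact_mod_cast Module.finrank_pos
  have h8 : (0 : ℝ) < Module.finrank ℚ L := by exact_mod_cast Module.finrank_pos
  rw [div_eq_div_iff (by positivity) h7.ne']
  linarith

end Pool.Agent.H11.FG
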